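import Mathlib

set_option autoImplicit false

namespace Pool.Agent.Results.MP_70678e_nt.BC

/-- sum of the decimal digits -/
def s (n : ℕ) : ℕ := (Nat.digits 10 n).sum

/-- `p` is the smallest prime with digit sum `k` -/
def IsRho (k p : ℕ) : Prop := IsLeast {q : ℕ | q.Prime ∧ s q = k} p

lemma s_rec (n : ℕ) : s n = n % 10 + s (n / 10) := by
  rcases Nat.eq_zero_or_pos n with rfl | h
  · simp [s]
  · rw [s, Nat.digits_def' (by norm_num) h, List.sum_cons, s]

def noDiv (n k : ℕ) : Bool := Nat.rec true (fun i ih => (Nat.ble i 1 || !Nat.beq (n % i) 0) && ih) k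

lemma noDiv_spec {n k : ℕ} (h : noDiv n k = true) (i : ℕ) (h2 : 2 ≤ i) (hi : i < k) : ¬ i ∣ n := by
  induction k with
  | zero => omega
  | succ k ih =>
    have h' : ((Nat.ble k 1 || !Nat.beq (n % k) 0) && noDiv n k) = true := h
    rw [Bool.and_eq_true] at h'
    rcases Nat.lt_succ_iff_lt_or_eq.mp hi with h1 | h1
    · exact ih h'.2 h1
    · subst h1
      intro hd
      have h3 := h'.1
      rw [Nat.mod_eq_zero_of_dvd hd] at h3
      simp at h3
      omega

lemma prime86 : Nat.Prime 6999999989 := by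
  rw [Nat.prime_def_le_sqrt]
  refine ⟨by norm_num, fun m h2 hm => noDiv_spec (k := 83700) (by decide +kernel) m h2 ?_⟩
  rw [Nat.le_sqrt] at hm
  by_contra hc
  have : 83700 * 83700 ≤ m * m := Nat.mul_le_mul (by omega) (by omega)
  omega

lemma rho86 : IsRho 86 6999999989 := by
  refine ⟨⟨prime86, by decide +kernel⟩, ?_⟩
  rintro q ⟨hq, hs⟩
  by_contra hlt
  push Not at hlt
  rw [s_rec, s_rec (_ / 10), s_rec (_ / 10 / 10), s_rec (_ / 10 / 10 / 10),
    s_rec (_ / 10 / 10 / 10 / 10), s_rec (_ / 10 / 10 / 10 / 10 / 10),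
    s_rec (_ / 10 / 10 / 10 / 10 / 10 / 10), s_rec (_ / 10 / 10 / 10 / 10 / 10 / 10 / 10),
    s_rec (_ / 10 / 10 / 10 / 10 / 10 / 10 / 10 / 10),
    s_rec (_ / 10 / 10 / 10 / 10 / 10 / 10 / 10 / 10 / 10)] at hs
  have h0 : q / 10 / 10 / 10 / 10 / 10 / 10 / 10 / 10 / 10 / 10 = 0 := by omega
  rw [h0] at hs
  have hs0 : s 0 = 0 := by simp [s]
  rw [hs0] at hs
  have : q = 5999999999 ∨ q = 6899999999 ∨ q = 6989999999 ∨ q = 6998999999 ∨ q = 6999899999 ∨
      q = 6999989999 ∨ q = 6999998999 ∨ q = 6999999899 := by omega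
  rcases this with h | h | h | h | h | h | h | h <;> rw [h] at hq <;> norm_num at hq

theorem result : (¬ ∀ k p : ℕ, 38 < k → IsRho k p → p % 100 = 99) ∧
    (¬ ∀ k p : ℕ, 59 < k → IsRho k p → p % 1000 = 999) :=
  ⟨fun h => absurd (h 86 _ (by norm_num) rho86) (by norm_num),
    fun h => absurd (h 86 _ (by norm_num) rho86) (by norm_num)⟩

end Pool.Agent.Results.MP_70678e_nt.BC
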